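import Pool.Agent.J6H94.AP.Stm

/-!
AP-MAX (helper34, for helper94's project AP): a maximum principle.
-/

set_option autoImplicit false

namespace Pool.Agent.J6H34.AP

open Pool.Agent.J6H94.AP Set

namespace MaxAux

theorem conv {A B w : ℝ} (hA : 0 < A) (hB : 0 < B) (hAB : A ≠ B) (hw : 0 < w) (hw1 : w < 1) :
    1 / ((1 - w) * A + w * B) < (1 - w) / A + w / B := by
  have h1 : 0 < (1 - w) * A + w * B := by
    have := mul_pos (sub_pos.2 hw1) hA
    have := mul_pos hw hB
    linarith
  rw [div_lt_iff₀ h1]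
  have h2 : ((1 - w) / A + w / B) * ((1 - w) * A + w * B) = 1 + w * (1 - w) * (A - B) ^ 2 / (A * B) := by
    field_simp
    ring
  rw [h2]
  have h3 : 0 < (A - B) ^ 2 := by
    have : A - B ≠ 0 := sub_ne_zero.2 hAB
    positivity
  have h4 : 0 < w * (1 - w) * (A - B) ^ 2 / (A * B) := by
    have := sub_pos.2 hw1
    positivity
  linarith

end MaxAux

open MaxAux in
theorem max : S_max := by
  intro r h G hg hG hrel hgrow
  have hr0 := hg.r0
  have hr1 := hg.r1
  have hc : 0 < r * h 0 := mul_pos hr0 (hg.pos 0)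
  obtain ⟨y₀, hy₀, hmax⟩ := isCompact_Icc.exists_isMaxOn (nonempty_Icc.2 hc.le) hG.continuousOn
  have hcont : Continuous h := by
    refine (LipschitzWith.of_dist_le_mul (K := 1) fun s t => ?_).continuous
    simpa [Real.dist_eq] using hg.lip s t
  have hw : 0 < r ^ 2 := by positivity
  have hw1 : r ^ 2 < 1 := by nlinarith
  have key : ∀ ε > 0, ∀ y ≥ 0, G y ≤ G y₀ + ε * (1 + y) := by
    intro ε hε y hy
    obtain ⟨R, hR⟩ := hgrow (ε / 2) (by positivity)
    let F : ℝ → ℝ := fun y => G y - ε * (y - 1 / (1 + y))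
    let R' := Max.max R (Max.max 0 (-(2 * G 0) / ε))
    have hR'0 : 0 ≤ R' := le_trans (le_max_left _ _) (le_max_right _ _)
    have hFc : ContinuousOn F (Icc 0 R') := by
      refine hG.continuousOn.sub (continuousOn_const.mul (continuousOn_id.sub ?_))
      refine ContinuousOn.div continuousOn_const (by fun_prop) ?_
      intro x hx
      have := hx.1
      positivity
    obtain ⟨y₁, hy₁, hm1⟩ := isCompact_Icc.exists_isMaxOn (nonempty_Icc.2 hR'0) hFc
    have hF1 : ∀ z ≥ 0, F z ≤ F y₁ := by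
      intro z hz
      rcases le_total z R' with hzR | hzR
      · exact hm1 ⟨hz, hzR⟩
      · have h0 : F 0 ≤ F y₁ := hm1 ⟨le_rfl, hR'0⟩
        refine le_trans ?_ h0
        have h1 : G z ≤ ε / 2 * z := hR z ((le_max_left _ _).trans hzR)
        have h2 : -(2 * G 0) / ε ≤ z := ((le_max_right _ _).trans (le_max_right _ _)).trans hzR
        rw [div_le_iff₀ hε] at h2
        have h3 : 1 / (1 + z) ≤ 1 := by
          rw [div_le_one (by positivity)]
          linarith
        have h4 : ε * (1 / (1 + z)) ≤ ε * 1 := mul_le_mul_of_nonneg_left h3 hε.le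
        show G z - ε * (z - 1 / (1 + z)) ≤ G 0 - ε * (0 - 1 / (1 + 0))
        have h5 : ε * (z - 1 / (1 + z)) = ε * z - ε * (1 / (1 + z)) := by ring
        have h6 : ε * ((0 : ℝ) - 1 / (1 + 0)) = -ε := by norm_num
        rw [h5, h6]
        nlinarith
    have hy₁0 : 0 ≤ y₁ := hy₁.1
    have hle : y₁ ≤ r * h 0 := by
      by_contra hcon
      push Not at hcon
      have hφ : ContinuousOn (fun s => s + r * h s) (Icc 0 y₁) :=
        (continuous_id.add (continuous_const.mul hcont)).continuousOn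
      have himg := intermediate_value_Icc hy₁0 hφ
      have hmem : y₁ ∈ Icc ((0 : ℝ) + r * h 0) (y₁ + r * h y₁) := by
        constructor
        · linarith
        · have := mul_pos hr0 (hg.pos y₁)
          linarith
      obtain ⟨s, hs, hsy⟩ := himg hmem
      simp only at hsy
      have hs0 : 0 ≤ s := hs.1
      have hhs := hg.pos s
      have hts : 0 < h s / r := div_pos hhs hr0
      have hyst : (1 - r ^ 2) * (1 + s) + r ^ 2 * (1 + (s + h s / r)) = 1 + y₁ := by
        rw [← hsy]
        field_simp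
        ring
      have hconv := conv (A := 1 + s) (B := 1 + (s + h s / r)) (w := r ^ 2) (by positivity)
        (by positivity) (by intro h0; linarith) hw hw1
      rw [hyst] at hconv
      have hG1 := hrel s
      rw [hsy] at hG1
      have hFs := hF1 s hs0
      have hFt := hF1 (s + h s / r) (by positivity)
      have hlt : F y₁ < (1 - r ^ 2) * F s + r ^ 2 * F (s + h s / r) := by
        have e1 : (1 - r ^ 2) * F s + r ^ 2 * F (s + h s / r) =
            ((1 - r ^ 2) * G s + r ^ 2 * G (s + h s / r)) -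
              ε * (((1 - r ^ 2) * (1 + s) + r ^ 2 * (1 + (s + h s / r)) - 1) -
                ((1 - r ^ 2) / (1 + s) + r ^ 2 / (1 + (s + h s / r)))) := by
          show (1 - r ^ 2) * (G s - ε * (s - 1 / (1 + s))) +
            r ^ 2 * (G (s + h s / r) - ε * ((s + h s / r) - 1 / (1 + (s + h s / r)))) = _
          ring
        rw [e1, ← hG1, hyst]
        show G y₁ - ε * (y₁ - 1 / (1 + y₁)) < _
        have := mul_lt_mul_of_pos_left hconv hε
        linarith
      have h1 : (1 - r ^ 2) * F s ≤ (1 - r ^ 2) * F y₁ := mul_le_mul_of_nonneg_left hFs (by linarith)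
      have h2 : r ^ 2 * F (s + h s / r) ≤ r ^ 2 * F y₁ := mul_le_mul_of_nonneg_left hFt hw.le
      linarith
    have h1 : G y₁ ≤ G y₀ := hmax ⟨hy₁0, hle⟩
    have h2 : G y - ε * (y - 1 / (1 + y)) ≤ G y₁ - ε * (y₁ - 1 / (1 + y₁)) := hF1 y hy
    have h3 : 1 / (1 + y₁) ≤ 1 := by
      rw [div_le_one (by positivity)]
      linarith
    have h4 : 0 ≤ 1 / (1 + y) := by positivity
    have h5 : ε * (1 / (1 + y₁)) ≤ ε * 1 := mul_le_mul_of_nonneg_left h3 hε.le
    have h6 : 0 ≤ ε * (1 / (1 + y)) := mul_nonneg hε.le h4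
    have h7 : 0 ≤ ε * y₁ := mul_nonneg hε.le hy₁0
    nlinarith
  refine ⟨y₀, hy₀, fun y hy => ?_⟩
  refine le_of_forall_pos_le_add fun δ hδ => ?_
  have h1 := key (δ / (1 + y)) (by positivity) y hy
  have h2 : δ / (1 + y) * (1 + y) = δ := div_mul_cancel₀ _ (by positivity)
  rwa [h2] at h1

end Pool.Agent.J6H34.AP
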